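import Mathlib
import Pool.Agent.Q98.QMeas2

set_option autoImplicit false

open Filter Topology

open scoped ENNReal

namespace Pool.Agent.Results.MP_8a0948_an.InequalityFails

/-- A finitely additive `μ : P(ω) → [0,1]` vanishing on finite sets. -/
def IsMeasure (μ : Set ℕ → ℝ) : Prop :=
  (∀ A, 0 ≤ μ A ∧ μ A ≤ 1) ∧ (∀ A B, Disjoint A B → μ (A ∪ B) = μ A + μ B) ∧
    ∀ A : Set ℕ, A.Finite → μ A = 0

/-- `{P n : n ∈ ω}` is a partition of `ω` into finite sets. -/
def IsFinitePartition (P : ℕ → Set ℕ) : Prop :=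
  (∀ n, (P n).Finite) ∧ (∀ m n, m ≠ n → Disjoint (P m) (P n)) ∧ ⋃ n, P n = Set.univ

/-- `A` meets every member of the partition in at most one point. -/
def IsSelector (A : Set ℕ) (P : ℕ → Set ℕ) : Prop := ∀ n, (A ∩ P n).Subsingleton

/-- `μ` is an `ε`-strong `Q`-measure. -/
def IsStrongQMeasure (ε : ℝ) (μ : Set ℕ → ℝ) : Prop :=
  IsMeasure μ ∧ ∀ P : ℕ → Set ℕ, IsFinitePartition P → ∃ A, IsSelector A P ∧ ε ≤ μ A

/-- The space `ℓ_∞`. -/
abbrev Linf : Type := lp (fun _ : ℕ => ℝ) ∞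

/-- The indicator function of `A` as an element of `ℓ_∞`. -/
noncomputable def ind (A : Set ℕ) : Linf :=
  ⟨A.indicator fun _ => (1 : ℝ), by
    apply memℓp_infty
    refine ⟨1, ?_⟩
    rintro _ ⟨n, rfl⟩
    by_cases hn : n ∈ A <;> simp [hn]⟩

/-- `Λ ∈ ℓ_∞* = ℓ₁**` is the functional identified with the measure `μ`. -/
def Represents (Λ : StrongDual ℝ Linf) (μ : Set ℕ → ℝ) : Prop := ∀ A, Λ (ind A) = μ A

/-- The adjoint `T* : X* → ℓ_∞`, `f ↦ (f (x n))`, of the operator `T : ℓ₁ → X`, `e_n ↦ x n`. -/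
noncomputable def adj {X : Type*} [NormedAddCommGroup X] [NormedSpace ℝ X] (x : ℕ → X)
    (hx : ∀ n, ‖x n‖ ≤ 1) : StrongDual ℝ X →L[ℝ] Linf :=
  LinearMap.mkContinuous
    { toFun := fun f => (⟨fun n => f (x n), by
        apply memℓp_infty
        refine ⟨‖f‖, ?_⟩
        rintro _ ⟨n, rfl⟩
        calc ‖f (x n)‖ ≤ ‖f‖ * ‖x n‖ := f.le_opNorm _
          _ ≤ ‖f‖ * 1 := by gcongr; exact hx n
          _ = ‖f‖ := mul_one _⟩ : Linf)
      map_add' := fun _ _ => rfl
      map_smul' := fun _ _ => rfl } 1 (by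
    intro f
    rw [one_mul]
    apply lp.norm_le_of_forall_le'
    intro n
    calc ‖f (x n)‖ ≤ ‖f‖ * ‖x n‖ := f.le_opNorm _
      _ ≤ ‖f‖ * 1 := by gcongr; exact hx n
      _ = ‖f‖ := mul_one _)

/-- `μ-lim (x n) = T**(Λ) = Λ ∘ T* ∈ X**`, where `Λ` is the functional identified with `μ`. -/
noncomputable def muLim {X : Type*} [NormedAddCommGroup X] [NormedSpace ℝ X]
    (Λ : StrongDual ℝ Linf) (x : ℕ → X) (hx : ∀ n, ‖x n‖ ≤ 1) : StrongDual ℝ (StrongDual ℝ X) :=
  Λ.comp (adj x hx)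

/-- `(x n)` is an `L`-orthogonal sequence. -/
def IsLOrthogonal {X : Type*} [NormedAddCommGroup X] [NormedSpace ℝ X] (x : ℕ → X) : Prop :=
  (∀ n, ‖x n‖ ≤ 1) ∧ ∀ z : X, Tendsto (fun n => ‖z + x n‖) atTop (𝓝 (1 + ‖z‖))

/-- The abstract computation. -/
theorem core {X : Type} [NormedAddCommGroup X] [NormedSpace ℝ X] (e : Option ℕ → X)
    (he : ∀ n, ‖e (some n)‖ ≤ 1) (he0 : ‖e none‖ = 1) (Λν : StrongDual ℝ Linf)
    (hΛn1 : ‖Λν‖ ≤ 1)
    (hV : ∀ g : StrongDual ℝ X, Tendsto (fun n => g (e (some n))) Q98.QMeas.V (𝓝 (- g (e none))))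
    (A : Set ℕ) (f : StrongDual ℝ X) (hf0 : f (e none) = 0)
    (hf : ∀ n, f (e (some n)) = A.indicator (fun _ => (1 : ℝ)) n) (hA : 0 < Λν (ind A))
    (ε₀ : ℝ) (hε₀ : 0 < ε₀) :
    ‖NormedSpace.inclusionInDoubleDual ℝ X (e none) +
      muLim ((1 / 2 : ℝ) • (Λν + Q98.QMeas.LV)) (fun n => e (some n)) he‖ <
      ‖e none‖ + ε₀ / 2 * ‖muLim ((1 / 2 : ℝ) • (Λν + Q98.QMeas.LV)) (fun n => e (some n)) he‖ := by
  have hval : ∀ g : StrongDual ℝ X,
      muLim ((1 / 2 : ℝ) • (Λν + Q98.QMeas.LV)) (fun n => e (some n)) he g =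
      1 / 2 * (Λν (adj (fun n => e (some n)) he g) - g (e none)) := by
    intro g
    have h1 : muLim ((1 / 2 : ℝ) • (Λν + Q98.QMeas.LV)) (fun n => e (some n)) he g =
      1 / 2 * (Λν (adj (fun n => e (some n)) he g) +
        Q98.QMeas.LV (adj (fun n => e (some n)) he g)) := rfl
    have h2 : Q98.QMeas.LV (adj (fun n => e (some n)) he g) = - g (e none) := by
      rw [Q98.QMeas.LV_apply]
      exact Q98.QMeas.vlim_eq _ _ (hV g)
    rw [h1, h2]; ring
  -- upper bound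
  have hup : ‖NormedSpace.inclusionInDoubleDual ℝ X (e none) +
      muLim ((1 / 2 : ℝ) • (Λν + Q98.QMeas.LV)) (fun n => e (some n)) he‖ ≤ 1 := by
    apply ContinuousLinearMap.opNorm_le_bound _ zero_le_one
    intro g
    have h1 : (NormedSpace.inclusionInDoubleDual ℝ X (e none) +
      muLim ((1 / 2 : ℝ) • (Λν + Q98.QMeas.LV)) (fun n => e (some n)) he) g = g (e none) +
      muLim ((1 / 2 : ℝ) • (Λν + Q98.QMeas.LV)) (fun n => e (some n)) he g := rfl
    rw [h1, hval g, one_mul]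
    have h2 : ‖g (e none)‖ ≤ ‖g‖ := by
      have := g.le_opNorm (e none)
      rwa [he0, mul_one] at this
    have h3 : ‖Λν (adj (fun n => e (some n)) he g)‖ ≤ ‖g‖ := by
      refine (Λν.le_opNorm _).trans ?_
      have h4 : ‖adj (fun n => e (some n)) he g‖ ≤ 1 * ‖g‖ := by
        refine (ContinuousLinearMap.le_opNorm _ _).trans ?_
        gcongr
        exact LinearMap.mkContinuous_norm_le _ zero_le_one _
      calc ‖Λν‖ * ‖adj (fun n => e (some n)) he g‖ ≤ 1 * (1 * ‖g‖) := by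
            gcongr
        _ = ‖g‖ := by ring
    rw [Real.norm_eq_abs] at h2 h3 ⊢
    rw [abs_le] at h2 h3 ⊢
    constructor <;> linarith
  -- the limit is nonzero
  have hpos : 0 < ‖muLim ((1 / 2 : ℝ) • (Λν + Q98.QMeas.LV)) (fun n => e (some n)) he‖ := by
    have h1 := hval f
    have h2 : adj (fun n => e (some n)) he f = ind A := by
      apply lp.ext
      funext n
      exact hf n
    rw [h2, hf0, sub_zero] at h1
    have h3 := (muLim ((1 / 2 : ℝ) • (Λν + Q98.QMeas.LV)) (fun n => e (some n)) he).le_opNorm f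
    rw [h1, Real.norm_eq_abs, abs_of_pos (by positivity)] at h3
    by_contra h4
    have h5 : ‖muLim ((1 / 2 : ℝ) • (Λν + Q98.QMeas.LV)) (fun n => e (some n)) he‖ * ‖f‖ ≤ 0 :=
      mul_nonpos_of_nonpos_of_nonneg (not_lt.1 h4) (norm_nonneg _)
    linarith
  rw [he0]
  have := mul_pos (half_pos hε₀) hpos
  linarith

/-- The construction, for a given `ε₀`-strong `Q`-measure. -/
theorem main (ε₀ : ℝ) (hε₀ : 0 < ε₀) (ν : Set ℕ → ℝ) (hν : IsStrongQMeasure ε₀ ν) :
    ∃ μ : Set ℕ → ℝ, IsStrongQMeasure (ε₀ / 2) μ ∧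
      ∃ (Λ : StrongDual ℝ Linf), Represents Λ μ ∧
      ∃ (X : Type) (_ : NormedAddCommGroup X) (_ : NormedSpace ℝ X) (_ : CompleteSpace X)
        (x : ℕ → X) (hx : IsLOrthogonal x) (z : X),
        ‖NormedSpace.inclusionInDoubleDual ℝ X z + muLim Λ x hx.1‖ <
          ‖z‖ + ε₀ / 2 * ‖muLim Λ x hx.1‖ := by
  classical
  obtain ⟨⟨hν01, hνadd, hνfin⟩, hνQ⟩ := hν
  obtain ⟨Λν, hΛn, hΛν⟩ := Q98.QMeas.exists_functional ν (fun A => (hν01 A).1) hνadd
  have hΛn1 : ‖Λν‖ ≤ 1 := hΛn.trans (hν01 _).2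
  set V := Q98.QMeas.V with hV
  set μ : Set ℕ → ℝ := fun A => (ν A + if A ∈ V then 1 else 0) / 2 with hμ
  have hμm : IsMeasure μ := by
    refine ⟨fun A => ?_, fun A B hAB => ?_, fun A hA => ?_⟩
    · have h1 := hν01 A
      simp only [hμ]
      split_ifs <;> constructor <;> linarith
    · simp only [hμ]
      rw [hνadd A B hAB]
      by_cases hA : A ∈ V
      · have hB : B ∉ V := by
          intro hB
          have := V.toFilter.inter_sets hA hB
          rw [hAB.inter_eq] at this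
          exact V.empty_notMem this
        have hAB' : A ∪ B ∈ V := V.toFilter.sets_of_superset hA Set.subset_union_left
        rw [if_pos hA, if_neg hB, if_pos hAB']; ring
      · by_cases hB : B ∈ V
        · have hAB' : A ∪ B ∈ V := V.toFilter.sets_of_superset hB Set.subset_union_right
          rw [if_neg hA, if_pos hB, if_pos hAB']; ring
        · have hAB' : A ∪ B ∉ V := by
            rw [Ultrafilter.union_mem_iff]
            push Not
            exact ⟨hA, hB⟩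
          rw [if_neg hA, if_neg hB, if_neg hAB']; ring
    · simp only [hμ]
      have h1 : A ∉ V := by
        have := Q98.QMeas.V_thin (Q98.QMeas.thin_of_finite hA)
        exact Ultrafilter.compl_mem_iff_notMem.1 this
      rw [hνfin A hA, if_neg h1]; simp
  have hμQ : IsStrongQMeasure (ε₀ / 2) μ := by
    refine ⟨hμm, fun P hP => ?_⟩
    obtain ⟨A, hA, hνA⟩ := hνQ P hP
    refine ⟨A, hA, ?_⟩
    simp only [hμ]
    split_ifs <;> linarith
  set Λ : StrongDual ℝ Linf := (1 / 2 : ℝ) • (Λν + Q98.QMeas.LV) with hΛ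
  have hLVind : ∀ A, Q98.QMeas.LV (ind A) = if A ∈ V then 1 else 0 := by
    intro A
    rw [Q98.QMeas.LV_apply]
    apply Q98.QMeas.vlim_eq
    by_cases hA : A ∈ V
    · rw [if_pos hA]
      refine tendsto_const_nhds.congr' ?_
      have : ∀ᶠ n in (V : Filter ℕ), n ∈ A := hA
      filter_upwards [this] with n hn
      show 1 = A.indicator (fun _ => (1:ℝ)) n
      rw [Set.indicator_of_mem hn]
    · rw [if_neg hA]
      refine tendsto_const_nhds.congr' ?_
      have : ∀ᶠ n in (V : Filter ℕ), n ∈ Aᶜ := Ultrafilter.compl_mem_iff_notMem.2 hA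
      filter_upwards [this] with n hn
      show 0 = A.indicator (fun _ => (1:ℝ)) n
      rw [Set.indicator_of_notMem hn]
  have hΛrep : Represents Λ μ := by
    intro A
    have h1 : Λ (ind A) = 1 / 2 * (Λν (ind A) + Q98.QMeas.LV (ind A)) := rfl
    rw [h1, hLVind]
    have h2 : Λν (ind A) = ν A := hΛν A
    rw [h2]
    simp only [hμ]
    ring
  have hLorth : IsLOrthogonal (fun n => Q98.QMeas.e (some n)) :=
    ⟨fun n => Q98.QMeas.norm_e_le _, Q98.QMeas.tendsto_X⟩
  refine ⟨μ, hμQ, Λ, hΛrep, Q98.QMeas.X, inferInstance, inferInstance, inferInstance,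
    fun n => Q98.QMeas.e (some n), hLorth, Q98.QMeas.e none, ?_⟩
  obtain ⟨A, hA, hνA⟩ := hνQ (fun k => (Q98.QMeas.I k : Set ℕ)) (by
    refine ⟨fun k => Finset.finite_toSet _, fun m n hmn => ?_, ?_⟩
    · rw [Set.disjoint_left]
      intro a ha hb
      rw [Finset.mem_coe, Q98.QMeas.mem_I] at ha hb
      exact hmn (ha.symm.trans hb)
    · rw [Set.eq_univ_iff_forall]
      intro a
      rw [Set.mem_iUnion]
      exact ⟨Nat.sqrt a, by rw [Finset.mem_coe, Q98.QMeas.mem_I]⟩)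
  set f : Q98.QMeas.K := ⟨(0, A.indicator fun _ => 1), by
    refine ⟨by simp, fun k => ?_⟩
    have hnn : ∀ n, 0 ≤ A.indicator (fun _ => (1:ℝ)) n := fun n =>
      Set.indicator_nonneg (fun _ _ => zero_le_one) n
    constructor
    · have h1 : ∑ n ∈ Q98.QMeas.I k, max (A.indicator (fun _ => (1:ℝ)) n + 0) 0 =
          ((Q98.QMeas.I k).filter fun n => n ∈ A).card := by
        rw [Finset.card_filter]
        push_cast
        apply Finset.sum_congr rfl
        intro n _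
        rw [add_zero, max_eq_left (hnn n), Set.indicator_apply]
      have h2 : ((Q98.QMeas.I k).filter fun n => n ∈ A).card ≤ 1 := by
        rw [Finset.card_le_one]
        intro a ha b hb
        rw [Finset.mem_filter] at ha hb
        exact hA k ⟨ha.2, ha.1⟩ ⟨hb.2, hb.1⟩
      have h3 : (((Q98.QMeas.I k).filter fun n => n ∈ A).card : ℝ) ≤ 1 := by exact_mod_cast h2
      rw [add_zero]
      exact h1.le.trans h3
    · rw [sub_zero]
      refine le_trans (le_of_eq ?_) zero_le_one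
      apply Finset.sum_eq_zero
      intro n _
      rw [add_zero]
      exact max_eq_right (by linarith [hnn n])⟩ with hf
  exact core Q98.QMeas.e (fun n => Q98.QMeas.norm_e_le _) Q98.QMeas.norm_e_none Λν hΛn1
    Q98.QMeas.tendsto_V A (Q98.QMeas.ev f) rfl (fun n => rfl)
    (by rw [show Λν (ind A) = ν A from hΛν A]; linarith) ε₀ hε₀

/-- **Theorem.** The negated form of the question holds exactly when `ε`-strong `Q`-measures exist
at all: as soon as there is an `ε₀`-strong `Q`-measure for some `ε₀ > 0`, the inequality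
`‖z + μ-lim (x n)‖ ≥ ‖z‖ + ε ‖μ-lim (x n)‖` fails for some `ε > 0`, some `ε`-strong `Q`-measure,
some `L`-orthogonal sequence in some Banach space, and some `z`. -/
theorem result :
    (∃ ε : ℝ, 0 < ε ∧ ∃ μ : Set ℕ → ℝ, IsStrongQMeasure ε μ ∧
      ∃ (Λ : StrongDual ℝ Linf), Represents Λ μ ∧
      ∃ (X : Type) (_ : NormedAddCommGroup X) (_ : NormedSpace ℝ X) (_ : CompleteSpace X)
        (x : ℕ → X) (hx : IsLOrthogonal x) (z : X),
        ‖NormedSpace.inclusionInDoubleDual ℝ X z + muLim Λ x hx.1‖ <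
          ‖z‖ + ε * ‖muLim Λ x hx.1‖) ↔
    ∃ ε : ℝ, 0 < ε ∧ ∃ μ : Set ℕ → ℝ, IsStrongQMeasure ε μ := by
  constructor
  · rintro ⟨ε, hε, μ, hμ, _⟩
    exact ⟨ε, hε, μ, hμ⟩
  · rintro ⟨ε₀, hε₀, ν, hν⟩
    obtain ⟨μ, hμ, h⟩ := main ε₀ hε₀ ν hν
    exact ⟨ε₀ / 2, by positivity, μ, hμ, h⟩

end Pool.Agent.Results.MP_8a0948_an.InequalityFails
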